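import Pool.Agent.R143.BetaN
import Pool.Agent.R143.BetaA

/-!
# Patterns `m, n, m+n, m*2^n` in minimal multiplicative idempotents (MP_d04c84_co)

There is a minimal idempotent of `(βℕ, ⊙)` all of whose members are additively central and which
has a member without a configuration `{m, n, m+n, m*2^n}`.
-/

namespace Pool.Agent.Results.MP_d04c84_co.NoPattern

open Pool.Agent.R143.BetaN Filter

/-- the set without the configuration -/
def theSet : Set ℕ+ := {y | Elt (y : ℕ)}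

lemma theSet_mem {v w c v₀ : Ultrafilter ℕ+} {U : Ultrafilter ℕ} (hU : (U : Filter ℕ) ≤ atTop)
    (hw : w = U.map fun i => (2 : ℕ+) ^ ee i)
    (hc : c = conv (· + ·) v₀ (U.map fun k => (2 : ℕ+) ^ gg k)) :
    theSet ∈ conv (· * ·) v (conv (· * ·) w c) := by
  rw [mem_conv]
  refine Filter.Eventually.mono (Filter.Eventually.of_forall (p := fun _ => True) fun _ => trivial) ?_
  intro j _
  show _ ∈ conv (· * ·) w c
  rw [mem_conv, hw, Ultrafilter.mem_map]
  have h1 : ∀ᶠ i in (U : Filter ℕ), (j : ℕ) ≤ i := hU (eventually_ge_atTop _)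
  filter_upwards [h1] with i hi
  show _ ∈ c
  rw [hc, mem_conv]
  refine Filter.Eventually.mono (Filter.Eventually.of_forall (p := fun _ => True) fun _ => trivial) ?_
  intro l _
  show _ ∈ U.map fun k => (2 : ℕ+) ^ gg k
  rw [Ultrafilter.mem_map]
  have h2 : ∀ᶠ k in (U : Filter ℕ), i ≤ k := hU (eventually_ge_atTop _)
  have h3 : ∀ᶠ k in (U : Filter ℕ), (l : ℕ) ≤ k := hU (eventually_ge_atTop _)
  filter_upwards [h2, h3] with k hk1 hk2
  show Elt ((j * ((2 : ℕ+) ^ ee i * (l + (2 : ℕ+) ^ gg k)) : ℕ+) : ℕ)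
  refine ⟨i, j, k, l, j.2, hi, hk1, l.2, hk2, ?_⟩
  push_cast
  ring

theorem result :
    ∃ p : Ultrafilter ℕ+, conv (· * ·) p p = p ∧ p ∈ kernel (· * ·) ∧
      (∀ A ∈ p, AddCentral A) ∧
      ∃ A ∈ p, ∀ m n : ℕ+, ¬ (m ∈ A ∧ n ∈ A ∧ m + n ∈ A ∧ m * 2 ^ (n : ℕ) ∈ A) := by
  let U : Ultrafilter ℕ := Ultrafilter.of atTop
  have hU : (U : Filter ℕ) ≤ atTop := Ultrafilter.of_le _
  obtain ⟨c, hcc, hcK, v₀, hv₀⟩ := exists_kernel_idem (f := (· + ·)) add_assoc
    (U.map fun k => (2 : ℕ+) ^ gg k)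
  obtain ⟨p, hpp, hpK, v, hv⟩ := exists_kernel_idem (f := (· * ·)) mul_assoc
    (conv (· * ·) (U.map fun i => (2 : ℕ+) ^ ee i) c)
  refine ⟨p, hpp, hpK, ?_, theSet, ?_, ?_⟩
  · intro B hB
    rw [hv, ← conv_assoc mul_assoc] at hB
    exact addCentral_of_conv hcc hcK hB
  · rw [hv]
    exact theSet_mem hU rfl hv₀
  · rintro m n ⟨h1, h2, h3, h4⟩
    refine no_config (m := m) (n := n) n.2 h1 h2 ?_ ?_
    · have : Elt ((m + n : ℕ+) : ℕ) := h3
      rwa [PNat.add_coe] at this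
    · have : Elt ((m * 2 ^ (n : ℕ) : ℕ+) : ℕ) := h4
      rw [PNat.mul_coe, PNat.pow_coe] at this
      exact this

end Pool.Agent.Results.MP_d04c84_co.NoPattern
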